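import Pool.Agent.Helper98.TW.Basic
import Pool.Agent.Helper73.TWR.CEC

/-! KK: functions which are orthogonal to the unimodular functions with increments in `C`
(MP_7a8f48_an). -/

set_option linter.unusedSectionVars false

open MeasureTheory Filter Topology Finset
open scoped ComplexConjugate

namespace Pool.Agent.Helper59.TWR

open Pool.Agent.Helper98.TW
open Pool.Agent.Helper73.TWR (pull)

section kk

variable {Ω : Type} [m0 : MeasurableSpace Ω] {μ : Measure Ω} [IsProbabilityMeasure μ]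

/-- the functions `G` with `conj h G` measurable for `𝒜` -/
def EH (μ : Measure Ω) (h : Ω → ℂ) (𝒜 : SA Ω) : Submodule ℂ (Lp ℂ 2 μ) where
  carrier := {G | AM μ 𝒜 (fun x => conj (h x) * G x)}
  add_mem' := by
    intro a b ha hb
    refine am_congr (am_add ha hb) ?_
    filter_upwards [Lp.coeFn_add a b] with x hx
    rw [hx, Pi.add_apply, mul_add]
  zero_mem' := by
    refine am_congr (am_const 0) ?_
    filter_upwards [Lp.coeFn_zero ℂ 2 μ] with x hx
    rw [hx]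
    simp
  smul_mem' := by
    intro c a ha
    refine am_congr (am_mul (am_const c) ha) ?_
    filter_upwards [Lp.coeFn_smul c a] with x hx
    rw [hx, Pi.smul_apply, smul_eq_mul]
    ring

theorem mem_EH {h : Ω → ℂ} {𝒜 : SA Ω} {G : Lp ℂ 2 μ} :
    G ∈ EH μ h 𝒜 ↔ AM μ 𝒜 (fun x => conj (h x) * G x) := Iff.rfl

theorem EH_closed (h : Ω → ℂ) (𝒜 : SA Ω) : IsClosed (EH μ h 𝒜 : Set (Lp ℂ 2 μ)) := by
  refine IsSeqClosed.isClosed fun G G0 hG hlim => ?_
  have h1 : TendstoInMeasure μ (fun k => (G k : Ω → ℂ)) atTop G0 :=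
    tendstoInMeasure_of_tendsto_Lp hlim
  obtain ⟨ns, hns, hae⟩ := h1.exists_seq_tendsto_ae
  refine am_of_tendsto (F := fun k x => conj (h x) * G (ns k) x) (fun k => hG (ns k)) ?_
  filter_upwards [hae] with x hx
  exact hx.const_mul _

theorem EH_CM {h : Ω → ℂ} {C 𝒜 : SA Ω} {R R' : Ω → Ω} (hS : Sys μ R R')
    (hA : IA μ 𝒜 R R') (hCA : LQ μ C 𝒜) (hh : UF μ h) (hInc : Inc μ 𝒜 R h) :
    CM μ C R (fun _ => (1 : ℂ →L[ℂ] ℂ)) (EH μ h 𝒜) where
  closed := EH_closed h 𝒜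
  mul := by
    intro G hG c hc _ G' hG'
    rw [mem_EH] at hG ⊢
    refine am_congr (am_mul (hCA c hc) hG) ?_
    filter_upwards [hG'] with x hx
    rw [hx, smul_eq_mul]
    ring
  comp := by
    intro G hG G' hG'
    rw [mem_EH] at hG ⊢
    refine am_congr (am_mul hInc (hA.2 _ hG).1) ?_
    filter_upwards [hG', ae_comp hS.mp hh.conj_mul] with x hx hx2
    rw [hx, one_apply_eq_self]
    linear_combination (conj (h x) * G (R x)) * hx2

/-- the functions which are orthogonal to a set -/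
noncomputable def EO (S : Set (Lp ℂ 2 μ)) : Submodule ℂ (Lp ℂ 2 μ) where
  carrier := {G | ∀ H ∈ S, (inner ℂ H G : ℂ) = 0}
  add_mem' := by
    intro a b ha hb H hH
    rw [inner_add_right, ha H hH, hb H hH, add_zero]
  zero_mem' := fun H _ => inner_zero_right H
  smul_mem' := by
    intro c a ha H hH
    rw [inner_smul_right, ha H hH, mul_zero]

theorem EO_closed (S : Set (Lp ℂ 2 μ)) : IsClosed (EO S : Set (Lp ℂ 2 μ)) := by
  have : (EO S : Set (Lp ℂ 2 μ)) = ⋂ H ∈ S, {G | (inner ℂ H G : ℂ) = 0} := by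
    ext G
    simp only [Set.mem_iInter]
    exact Iff.rfl
  rw [this]
  exact isClosed_biInter fun H _ => isClosed_eq (continuous_const.inner continuous_id)
    continuous_const

/-- bounded `C`-measurable multiples of `ψ` -/
def SP (μ : Measure Ω) (C : SA Ω) (ψ : Ω → ℂ) : Set (Lp ℂ 2 μ) :=
  {G | ∃ c : Ω → ℂ, AM μ C c ∧ (∃ B : ℝ, ∀ᵐ x ∂μ, ‖c x‖ ≤ B) ∧ G =ᵐ[μ] fun x => c x * ψ x}

theorem exists_SP {C : SA Ω} (hC : Lm C) {ψ : Ω → ℂ} (hψ : UF μ ψ) {c : Ω → ℂ}
    (hc : AM μ C c) (hb : ∃ B : ℝ, ∀ᵐ x ∂μ, ‖c x‖ ≤ B) :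
    ∃ H ∈ SP μ C ψ, H =ᵐ[μ] fun x => c x * ψ x := by
  obtain ⟨B, hB⟩ := hb
  have hcm : AEStronglyMeasurable c μ := AEStronglyMeasurable.mono hC hc
  have hm : MemLp (fun x => c x * ψ x) 2 μ := by
    refine MemLp.of_bound (hcm.mul hψ.1.aestronglyMeasurable) B ?_
    filter_upwards [hB, hψ.2] with x h1 h2
    rw [norm_mul, h2, mul_one]
    exact h1
  exact ⟨hm.toLp _, ⟨c, hc, ⟨B, hB⟩, hm.coeFn_toLp⟩, hm.coeFn_toLp⟩

theorem inner_eq {G H : Lp ℂ 2 μ} {f : Ω → ℂ} (h : H =ᵐ[μ] f) :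
    (inner ℂ H G : ℂ) = ∫ x, conj (f x) * G x ∂μ := by
  rw [L2.inner_def]
  refine integral_congr_ae ?_
  filter_upwards [h] with x hx
  rw [hx, RCLike.inner_apply, mul_comm]

theorem int_comp {R : Ω → Ω} (hR : MeasurePreserving R μ μ) {f : Ω → ℂ}
    (hf : AEStronglyMeasurable f μ) : ∫ x, f (R x) ∂μ = ∫ x, f x ∂μ := by
  have h1 := integral_map (f := f) hR.measurable.aemeasurable (by rw [hR.map_eq]; exact hf)
  rw [hR.map_eq] at h1
  exact h1.symm

theorem EO_CM {C : SA Ω} {R R' : Ω → Ω} {ψ : Ω → ℂ} (hS : Sys μ R R') (hC : IA μ C R R')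
    (hψ : UF μ ψ) (hInc : Inc μ C R ψ) :
    CM μ C R (fun _ => (1 : ℂ →L[ℂ] ℂ)) (EO (SP μ C ψ)) where
  closed := EO_closed _
  mul := by
    rintro G hG c hc ⟨B, hB⟩ G' hG' H ⟨c1, hc1, ⟨B1, hB1⟩, hH⟩
    obtain ⟨H2, hH2, hH2'⟩ := exists_SP hC.1 hψ (am_mul hc1 (am_conj hc))
      ⟨B1 * B, by
        filter_upwards [hB, hB1] with x h1 h2
        rw [norm_mul, RCLike.norm_conj]
        exact mul_le_mul h2 h1 (norm_nonneg _) ((norm_nonneg _).trans h2)⟩
    rw [← hG H2 hH2, inner_eq hH, inner_eq hH2']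
    refine integral_congr_ae ?_
    filter_upwards [hG'] with x hx
    rw [hx, smul_eq_mul]
    simp only [map_mul, Complex.conj_conj]
    ring
  comp := by
    rintro G hG G' hG' H ⟨c1, hc1, ⟨B1, hB1⟩, hH⟩
    have hb : AM μ C (fun x => ψ (R x) * conj (ψ x)) := hInc
    obtain ⟨H2, hH2, hH2'⟩ := exists_SP hC.1 hψ
      (am_mul (hC.2 _ hc1).2 (am_conj (hC.2 _ hb).2))
      ⟨B1, by
        filter_upwards [ae_comp hS.mp' hB1, ae_comp hS.mp' hψ.2,
          ae_comp hS.mp' (ae_comp hS.mp hψ.2)] with x h1 h2 h3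
        rw [norm_mul, RCLike.norm_conj, norm_mul, RCLike.norm_conj, h2, h3, mul_one, mul_one]
        exact h1⟩
    rw [← hG H2 hH2, inner_eq hH, inner_eq hH2']
    have hmeas : AEStronglyMeasurable (fun x => conj (c1 (R' x) *
        conj (ψ (R (R' x)) * conj (ψ (R' x))) * ψ x) * G x) μ := by
      have h1 : AEStronglyMeasurable (fun x => c1 (R' x) *
        conj (ψ (R (R' x)) * conj (ψ (R' x))) * ψ x) μ :=
        (Lp.aestronglyMeasurable H2).congr hH2'
      exact (Complex.continuous_conj.comp_aestronglyMeasurable h1).mul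
        (Lp.aestronglyMeasurable G)
    have e1 : ∫ x, conj (c1 (R' x) * conj (ψ (R (R' x)) * conj (ψ (R' x))) * ψ x) * G x ∂μ =
        ∫ x, conj (c1 (R' (R x)) * conj (ψ (R (R' (R x))) * conj (ψ (R' (R x)))) * ψ (R x)) *
          G (R x) ∂μ := (int_comp hS.mp hmeas).symm
    rw [e1]
    refine integral_congr_ae ?_
    filter_upwards [hG', hS.l, ae_comp hS.mp hψ.conj_mul] with x hx h1 h2
    rw [hx, h1, one_apply_eq_self]
    simp only [map_mul, Complex.conj_conj]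
    linear_combination -(conj (c1 x) * conj (ψ x) * G (R x)) * h2

theorem mem_EO_SP {C : SA Ω} (hC : Lm C) {ψ F : Ω → ℂ} (hψ : UF μ ψ) (hF : BF F)
    (h : μ[fun x => conj (ψ x) * F x|C] =ᵐ[μ] 0) {F' : Lp ℂ 2 μ} (hF' : F' =ᵐ[μ] F) :
    F' ∈ EO (SP μ C ψ) := by
  rintro H ⟨c, hc, ⟨B, hB⟩, hH⟩
  obtain ⟨hFm, B2, hB2⟩ := hF
  rw [inner_eq hH]
  have hcm : AEStronglyMeasurable c μ := AEStronglyMeasurable.mono hC hc
  have hψm : AEStronglyMeasurable (fun x => conj (ψ x)) μ :=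
    (Complex.continuous_conj.measurable.comp hψ.1).aestronglyMeasurable
  have hg : Integrable (fun x => conj (ψ x) * F x) μ := by
    refine Integrable.of_bound (hψm.mul hFm.aestronglyMeasurable) B2 ?_
    filter_upwards [hψ.2] with x h1
    rw [norm_mul, RCLike.norm_conj, h1, one_mul]
    exact hB2 x
  have hfg : Integrable (fun x => conj (c x) * (conj (ψ x) * F x)) μ := by
    refine hg.bdd_mul (c := B) (Complex.continuous_conj.comp_aestronglyMeasurable hcm) ?_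
    filter_upwards [hB] with x h1
    rw [RCLike.norm_conj]
    exact h1
  have e1 : ∫ x, conj (c x * ψ x) * F' x ∂μ = ∫ x, conj (c x) * (conj (ψ x) * F x) ∂μ := by
    refine integral_congr_ae ?_
    filter_upwards [hF'] with x hx
    rw [hx, map_mul]
    ring
  rw [e1, ← integral_condExp hC]
  have h2 := pull (am_conj hc) hfg hg
  rw [integral_congr_ae h2]
  have h3 : (fun x => conj (c x) * (μ[fun x => conj (ψ x) * F x|C]) x) =ᵐ[μ] fun _ => 0 := by
    filter_upwards [h] with x hx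
    rw [hx]
    simp
  rw [integral_congr_ae h3, integral_zero]

end kk

theorem st_KK (hPSI : ST_PSI) (hPSE : ST_PSE) : ST_KK := by
  intro Ω _ μ _ R R' C 𝒜 h F n hS hE hC hA hCA hh hInc hSM hF hhF hperp
  have hFm : Measurable F := hF.1
  obtain ⟨B, hB⟩ := hF.2
  have hone : ∀ (x : Ω) (v : ℂ), ‖(fun _ : Ω => (1 : ℂ →L[ℂ] ℂ)) x v‖ = ‖v‖ := by
    intro x v
    simp
  have hmeas1 : AEStronglyMeasurable (fun _ : Ω => (1 : ℂ →L[ℂ] ℂ)) μ :=
    aestronglyMeasurable_const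
  obtain ⟨Ψ, hsa, hpos, hmulΨ, hcompΨ, hlim, hbes, hran⟩ := hPSI Ω μ ℂ R R' (fun _ => 1) C F B
    hS hE hC hmeas1 hone hFm.aestronglyMeasurable hB
  have hFL : MemLp F 2 μ := MemLp.of_bound hFm.aestronglyMeasurable B (Eventually.of_forall hB)
  set F' : Lp ℂ 2 μ := hFL.toLp F with hF'
  have hF'F : F' =ᵐ[μ] F := hFL.coeFn_toLp
  rw [hlim F' hF'F]
  set A : ℝ := ∫ x, ‖F x‖ ^ 2 ∂μ with hAdef
  have hnorm : ‖F'‖ ^ 2 = A := by
    have h1 : (inner ℂ F' F' : ℂ) = ((∫ x, ‖F x‖ ^ 2 ∂μ : ℝ) : ℂ) := by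
      rw [inner_eq hF'F, ← integral_complex_ofReal]
      refine integral_congr_ae ?_
      filter_upwards [hF'F] with x hx
      rw [hx, Complex.conj_mul']
      push_cast
      rfl
    have h2 : ((‖F'‖ ^ 2 : ℝ) : ℂ) = ((∫ x, ‖F x‖ ^ 2 ∂μ : ℝ) : ℂ) := by
      rw [← h1, inner_self_eq_norm_sq_to_K]
      push_cast
      rfl
    exact Complex.ofReal_injective h2
  by_contra hcon
  push Not at hcon
  have hn : (0 : ℝ) < n + 1 := by positivity
  have hA0 : 0 < A := by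
    rcases (sq_nonneg ‖F'‖).lt_or_eq with h1 | h1
    · rw [hnorm] at h1
      exact h1
    · exfalso
      have h2 : F' = 0 := by
        have : ‖F'‖ = 0 := by
          exact pow_eq_zero_iff (two_ne_zero) |>.1 h1.symm
        exact norm_eq_zero.1 this
      rw [h2] at hcon
      simp only [inner_zero_right, map_zero] at hcon
      have : 0 ≤ A ^ 2 / ((n : ℝ) + 1) := by positivity
      linarith
  set α : ℝ := RCLike.re (inner ℂ (Ψ F') F' : ℂ) with hα
  have hlt : A / (n + 1) < α / A := by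
    rw [lt_div_iff₀ hA0]
    calc A / (n + 1) * A = A ^ 2 / (n + 1) := by ring
      _ < α := hcon
  obtain ⟨s, hs1, hs2⟩ := exists_between hlt
  have hs0 : 0 < s := lt_of_le_of_lt (by positivity) hs1
  obtain ⟨E, hCM, hRk, -, hup, hmin⟩ := hPSE Ω μ ℂ R R' (fun _ => 1) C Ψ A s hS hE hC hmeas1 hone
    hsa hpos hmulΨ hcompΨ hbes hs0
  have hEbot : E ≠ ⊥ := by
    intro hbot
    have h1 := hup F' (fun G' hG' => by
      rw [hbot, Submodule.mem_bot] at hG'
      rw [hG', inner_zero_left])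
    rw [hnorm] at h1
    rw [lt_div_iff₀ hA0] at hs2
    linarith
  have hcmH := EH_CM hS hA hCA hh hInc
  have hEH : E ≤ EH μ h 𝒜 := by
    refine hmin _ hcmH.closed (hran _ hcmH fun G hG => ?_)
    rw [mem_EH]
    refine am_congr hhF ?_
    filter_upwards [hG] with x hx
    rw [hx]
  have hRkn : Rk μ C E n := by
    refine hRk n ?_
    rw [div_lt_iff₀ hs0]
    rw [div_lt_iff₀ hn] at hs1
    linarith
  obtain ⟨ψ, hψ, hψI, G, hG, hGψ⟩ := hSM h hh hInc E hCM hEbot (fun G hG => hEH hG) hRkn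
  have hcmO := EO_CM hS hC hψ hψI
  have hψA : AM μ 𝒜 (fun x => conj (h x) * ψ x) := by
    refine am_congr (mem_EH.1 (hEH hG)) ?_
    filter_upwards [hGψ] with x hx
    rw [hx]
  have hEO : E ≤ EO (SP μ C ψ) := by
    refine hmin _ hcmO.closed (hran _ hcmO fun G hG => ?_)
    exact mem_EO_SP hC.1 hψ hF (hperp ψ hψ hψI hψA) hG
  have h1 : (inner ℂ G G : ℂ) = 0 := by
    refine hEO hG G ⟨fun _ => 1, am_const 1, ⟨1, Eventually.of_forall fun x => by simp⟩, ?_⟩
    filter_upwards [hGψ] with x hx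
    rw [hx, one_mul]
  have h2 : G = 0 := inner_self_eq_zero.1 h1
  have h3 : ∀ᵐ x ∂μ, False := by
    have h4 : (G : Ω → ℂ) =ᵐ[μ] 0 := by
      rw [h2]
      exact Lp.coeFn_zero ℂ 2 μ
    filter_upwards [h4, hGψ, hψ.2] with x h5 h6 h7
    rw [← h6, h5] at h7
    simp at h7
  obtain ⟨x, hx⟩ := h3.exists
  exact hx

end Pool.Agent.Helper59.TWR
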