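import Pool.Agent.Helper59.TWR.MPS
import Pool.Agent.Helper59.TWR.KK
import Pool.Agent.Helper96.TWR.PFC

/-! VF2: functions orthogonal to all classes (MP_7a8f48_an). -/

set_option linter.unusedSectionVars false

open MeasureTheory Filter Topology Finset
open scoped ComplexConjugate

namespace Pool.Agent.Helper59.TWR

open Pool.Agent.Helper16.AZ (T mm)
open Pool.Agent.Helper98.TW
open UnitAddTorus (mFourier)
open Pool.Agent.Helper96.TWR (st_PFC AM_comp AM_factor cm_le)

/-! ### characters -/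

section exs

variable {N : ℕ} {lev : Fin N → ℕ} {f f' : Fin N → T N → U}

theorem ex_eq (a : Fin N → ℤ) (x : T N) : ex a x = ∏ i, fourier (a i) (x i) := rfl

theorem ex_add (a : Fin N → ℤ) (x y : T N) : ex a (x + y) = ex a x * ex a y := by
  simp only [ex_eq, Pi.add_apply, fourier_apply, smul_add, AddCircle.toCircle_add, Circle.coe_mul,
    Finset.prod_mul_distrib]

theorem norm_ex (a : Fin N → ℤ) (x : T N) : ‖ex a x‖ = 1 := by
  rw [ex_eq, norm_prod]
  exact Finset.prod_eq_one fun i _ => by rw [fourier_apply, Circle.norm_coe]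

theorem uf_ex (a : Fin N → ℤ) : UF (mm N) (ex a) :=
  ⟨(mFourier a).continuous.measurable, Eventually.of_forall fun x => norm_ex a x⟩

theorem ex_mul_conj (a : Fin N → ℤ) (x : T N) : ex a x * conj (ex a x) = 1 := by
  rw [Complex.mul_conj, Complex.normSq_eq_norm_sq, norm_ex]
  simp

theorem inc_ex (h : Tow lev f) {l : ℕ} {a : Fin N → ℤ} (ha : la lev l a) :
    Inc (mm N) (AL lev l) (SS f) (ex a) := by
  have hu : Measurable (fun y : T N => ∏ i, (fourier (a i) (f i y) : ℂ)) :=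
    Finset.measurable_prod _ fun i _ => (fourier (a i)).continuous.measurable.comp (h.meas i)
  have h1 : ∀ x, ex a (SS f x) * conj (ex a x) =
      (fun y : T N => ∏ i, (fourier (a i) (f i y) : ℂ)) (tr lev l x) := by
    intro x
    have h2 : SS f x = x + fun i => f i x := rfl
    rw [h2, ex_add, mul_right_comm, ex_mul_conj, one_mul, ex_eq]
    refine Finset.prod_congr rfl fun i _ => ?_
    by_cases hi : a i = 0
    · rw [hi, fourier_zero, fourier_zero]
    · have h3 := ha i hi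
      have h4 : f i (tr lev l x) = f i x := by
        rw [← h3]
        exact h.dep i x
      rw [h4]
  refine am_congr (am_of (hu.comp (comap_measurable (tr lev l)))) (Eventually.of_forall fun x => ?_)
  exact (h1 x).symm

end exs

section gen

variable {Ω Ω' : Type} [m0 : MeasurableSpace Ω] [m0' : MeasurableSpace Ω'] {μ : Measure Ω}
  {μ' : Measure Ω'} {𝒜 : SA Ω} {R R' : Ω → Ω} {ψ : Ω → ℂ}

theorem inc_iterate (hA : IA μ 𝒜 R R') (hR : MeasurePreserving R μ μ) (hψ : UF μ ψ)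
    (h : Inc μ 𝒜 R ψ) (n : ℕ) : Inc μ 𝒜 R^[n] ψ := by
  induction n with
  | zero =>
    refine am_congr (am_const 1) ?_
    filter_upwards [hψ.mul_conj] with x hx
    exact hx.symm
  | succ n ih =>
    have h1 : AM μ 𝒜 (fun x => ψ (R (R^[n] x)) * conj (ψ (R^[n] x))) :=
      ((hA.iterate n).2 _ h).1
    refine am_congr (am_mul h1 ih) ?_
    filter_upwards [ae_comp (hR.iterate n) hψ.conj_mul] with x hx
    rw [Function.iterate_succ_apply']
    linear_combination (ψ (R (R^[n] x)) * conj (ψ x)) * hx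

theorem ia_cm {π : Ω → Ω'} (hπ : MeasurePreserving π μ μ') {ℬ : SA Ω'} {S S' : Ω' → Ω'}
    (hRS : ∀ x, π (R x) = S (π x)) (hRS' : ∀ x, π (R' x) = S' (π x))
    (hR : MeasurePreserving R μ μ) (hR' : MeasurePreserving R' μ μ) (hB : IA μ' ℬ S S') :
    IA μ (cm π ℬ) R R' := by
  refine ⟨cm_le hπ.measurable hB.1, fun g hg => ?_⟩
  obtain ⟨F, hFm, hF, hgF⟩ := AM_factor (μ' := μ') hB.1 hg
  constructor
  · refine am_congr (AM_comp hπ (hB.2 F hF).1) ?_
    filter_upwards [ae_comp hR hgF] with x hx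
    rw [hx, hRS]
  · refine am_congr (AM_comp hπ (hB.2 F hF).2) ?_
    filter_upwards [ae_comp hR' hgF] with x hx
    rw [hx, hRS']

theorem lq_cm {π : Ω → Ω'} (hπ : MeasurePreserving π μ μ') {ℬ 𝒞 : SA Ω'} (hB : Lm ℬ)
    (h : LQ μ' ℬ 𝒞) : LQ μ (cm π ℬ) (cm π 𝒞) := by
  intro g hg
  obtain ⟨F, hFm, hF, hgF⟩ := AM_factor (μ' := μ') hB hg
  exact am_congr (AM_comp hπ (h F hF)) hgF.symm

theorem Wi_one (F : Ω → ℂ) (h : ℕ) :
    Wi (fun _ : Ω => (1 : ℂ →L[ℂ] ℂ)) R h F = fun x => F (R^[h] x) := by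
  unfold Wi
  induction h with
  | zero => rfl
  | succ h ih =>
    rw [Function.iterate_succ_apply', ih]
    funext x
    rw [one_apply_eq_self, Function.iterate_succ_apply]

theorem int_cm {π : Ω → Ω'} (hπ : MeasurePreserving π μ μ') {g : Ω' → ℝ}
    (hg : AEStronglyMeasurable g μ') : ∫ x, g (π x) ∂μ = ∫ y, g y ∂μ' := by
  have h1 := integral_map (f := g) hπ.measurable.aemeasurable (by rw [hπ.map_eq]; exact hg)
  rw [hπ.map_eq] at h1
  exact h1.symm

theorem al_cm [IsProbabilityMeasure μ] [IsProbabilityMeasure μ'] {π : Ω → Ω'}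
    (hπ : MeasurePreserving π μ μ') {C : SA Ω'} (hC : Lm C) {S : Ω' → Ω'}
    (hRS : ∀ x, π (R x) = S (π x)) (hS : Measurable S) {F : Ω' → ℂ} (hF : BF F) (H : ℕ) :
    al μ (cm π C) R (fun _ => (1 : ℂ →L[ℂ] ℂ)) (fun x => F (π x)) H =
      al μ' C S (fun _ => (1 : ℂ →L[ℂ] ℂ)) F H := by
  obtain ⟨hFm, B, hB⟩ := hF
  have hit : ∀ (h : ℕ) (x : Ω), π (R^[h] x) = S^[h] (π x) := by
    intro h
    induction h with
    | zero => exact fun x => rfl
    | succ h ih =>
      intro x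
      rw [Function.iterate_succ_apply, Function.iterate_succ_apply, ih, hRS]
  unfold al
  congr 1
  refine Finset.sum_congr rfl fun h _ => ?_
  simp only [Wi_one]
  simp only [hit]
  have hm : Measurable (fun y => (inner ℂ (F y) (F (S^[h] y)) : ℂ)) :=
    hFm.inner (hFm.comp (hS.iterate h))
  have hi : Integrable (fun y => (inner ℂ (F y) (F (S^[h] y)) : ℂ)) μ' := by
    refine Integrable.of_bound hm.aestronglyMeasurable (B * B) (Eventually.of_forall fun y => ?_)
    refine (norm_inner_le_norm _ _).trans ?_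
    exact mul_le_mul (hB _) (hB _) (norm_nonneg _) ((norm_nonneg _).trans (hB y))
  have h1 := (st_PFC Ω Ω' μ μ' π C hπ hC).1 _ hi
  rw [← int_cm hπ (g := fun y => ‖(μ'[fun y => (inner ℂ (F y) (F (S^[h] y)) : ℂ)|C]) y‖ ^ 2)
    (integrable_condExp.aestronglyMeasurable.norm.pow 2)]
  refine integral_congr_ae ?_
  filter_upwards [h1] with x hx
  rw [hx]

end gen

/-! ### joinings -/

section jn

variable {N : ℕ} {lev : Fin N → ℕ} {f f' : Fin N → T N → U} {p q : ℕ} {κ : Measure (T N × T N)}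

theorem sys_jn (h : TI lev f f') (hκ : JN f p q κ) :
    Sys κ (Prod.map (SS f)^[p] (SS f)^[q]) (Prod.map (SS f')^[p] (SS f')^[q]) := by
  have hl : ∀ z, Prod.map (SS f')^[p] (SS f')^[q] (Prod.map (SS f)^[p] (SS f)^[q] z) = z := by
    intro z
    have hL : Function.LeftInverse (SS f') (SS f) := h.l
    exact Prod.ext (hL.iterate p z.1) (hL.iterate q z.2)
  have hr : ∀ z, Prod.map (SS f)^[p] (SS f)^[q] (Prod.map (SS f')^[p] (SS f')^[q] z) = z := by
    intro z
    have hL : Function.LeftInverse (SS f) (SS f') := h.r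
    exact Prod.ext (hL.iterate p z.1) (hL.iterate q z.2)
  have hm : Measurable (SS f) := (mp_SS h.t).measurable
  have hm' : Measurable (SS f') := (mp_SS h.t').measurable
  have hM' : Measurable (Prod.map (SS f')^[p] (SS f')^[q]) :=
    (hm'.iterate p).prodMap (hm'.iterate q)
  have hmp := hκ.erg.toMeasurePreserving
  refine ⟨hmp, ⟨hM', ?_⟩, Eventually.of_forall hl, Eventually.of_forall hr⟩
  have h1 : Measure.map (Prod.map (SS f')^[p] (SS f')^[q])
      (Measure.map (Prod.map (SS f)^[p] (SS f)^[q]) κ) = κ := by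
    rw [Measure.map_map hM' hmp.measurable]
    have : (Prod.map (SS f')^[p] (SS f')^[q]) ∘ (Prod.map (SS f)^[p] (SS f)^[q]) = id :=
      funext hl
    rw [this, Measure.map_id]
  rwa [hmp.map_eq] at h1

theorem mp_fst (hκ : JN f p q κ) : MeasurePreserving (Prod.fst : T N × T N → T N) κ (mm N) :=
  ⟨measurable_fst, hκ.fst⟩

theorem mp_snd (hκ : JN f p q κ) : MeasurePreserving (Prod.snd : T N × T N → T N) κ (mm N) :=
  ⟨measurable_snd, hκ.snd⟩

/-- the sigma algebra of the second coordinate is invariant -/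
theorem ia_BB (h : TI lev f f') (hκ : JN f p q κ) :
    IA κ (BB N) (Prod.map (SS f)^[p] (SS f)^[q]) (Prod.map (SS f')^[p] (SS f')^[q]) := by
  have hS := sys_jn h hκ
  have hq := st_MPS N lev f f' h q
  refine ia_cm (mp_snd hκ) (S := (SS f)^[q]) (S' := (SS f')^[q]) (fun _ => rfl) (fun _ => rfl)
    hS.mp hS.mp' ⟨le_refl (α := MeasurableSpace (T N)) _, fun g hg => ⟨?_, ?_⟩⟩
  · exact AEStronglyMeasurable.comp_measurePreserving hg hq.mp
  · exact AEStronglyMeasurable.comp_measurePreserving hg hq.mp'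

/-- invariant sigma algebras of the first coordinate -/
theorem ia_fst (h : TI lev f f') (hκ : JN f p q κ) {ℬ : SA (T N)}
    (hB : IA (mm N) ℬ (SS f)^[p] (SS f')^[p]) :
    IA κ (cm Prod.fst ℬ) (Prod.map (SS f)^[p] (SS f)^[q])
      (Prod.map (SS f')^[p] (SS f')^[q]) := by
  have hS := sys_jn h hκ
  exact ia_cm (mp_fst hκ) (fun _ => rfl) (fun _ => rfl) hS.mp hS.mp' hB

/-- the estimate `VE` in terms of functions of pairs -/
theorem ve_pairs (hκ : JN f p q κ) {C : SA (T N)} (hC : Lm C) {l : ℕ} (hAL : Lm (AL lev l))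
    {δ : ℝ} (hVE : VE lev κ C l δ) {G : T N × T N → ℂ} (hG : BF G)
    (hGA : AM κ (cm Prod.fst (AL lev l)) G) (h0 : κ[G|cm Prod.fst C] =ᵐ[κ] 0) :
    ∫ z, ‖(κ[G|BB N]) z‖ ^ 2 ∂κ ≤ δ * ∫ z, ‖G z‖ ^ 2 ∂κ := by
  have hP : IsProbabilityMeasure κ := hκ.prob
  have hfst := mp_fst hκ
  obtain ⟨g, hgm, hgA, hGg⟩ := AM_factor (μ' := mm N) hAL hGA
  obtain ⟨hGm, B, hB⟩ := hG
  have hgB : ∀ᵐ x ∂(mm N), ‖g x‖ ≤ B := by
    rw [← hκ.fst]
    refine (ae_map_iff measurable_fst.aemeasurable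
      (measurableSet_le hgm.norm measurable_const)).2 ?_
    filter_upwards [hGg] with z hz
    rw [← hz]
    exact hB z
  have hg2 : MemLp g 2 (mm N) := MemLp.of_bound hgm.aestronglyMeasurable B hgB
  have hgi : Integrable g (mm N) := Integrable.of_bound hgm.aestronglyMeasurable B hgB
  have hg0 : (mm N)[g|C] =ᵐ[mm N] 0 := by
    have h1 := (st_PFC _ _ κ (mm N) Prod.fst C hfst hC).1 g hgi
    have h2 : κ[fun z : T N × T N => g z.1|cm Prod.fst C] =ᵐ[κ] κ[G|cm Prod.fst C] :=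
      condExp_congr_ae hGg.symm
    have hm : Measurable ((mm N)[g|C]) := (stronglyMeasurable_condExp.mono hC).measurable
    have hae : ∀ᵐ x ∂(κ.map Prod.fst), ((mm N)[g|C]) x = 0 := by
      refine (ae_map_iff measurable_fst.aemeasurable
        (measurableSet_eq_fun hm measurable_const)).2 ?_
      filter_upwards [h1, h2, h0] with z h3 h4 h5
      rw [← h3, h4, h5]
      rfl
    rw [hκ.fst] at hae
    exact hae
  have hmain := hVE g hgm hg2 hgA hg0
  unfold JJ at hmain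
  have e1 : ∫ z, ‖(κ[G|BB N]) z‖ ^ 2 ∂κ =
      ∫ z, ‖(κ[fun z : T N × T N => g z.1|BB N]) z‖ ^ 2 ∂κ := by
    refine integral_congr_ae ?_
    filter_upwards [condExp_congr_ae (m := BB N) hGg] with z hz
    rw [hz]
  have e2 : ∫ z, ‖G z‖ ^ 2 ∂κ = ∫ x, ‖g x‖ ^ 2 ∂(mm N) := by
    rw [← int_cm hfst (g := fun x => ‖g x‖ ^ 2) (hgm.norm.pow_const 2).aestronglyMeasurable]
    refine integral_congr_ae ?_
    filter_upwards [hGg] with z hz
    rw [hz]
  rw [e1, e2]
  exact hmain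

end jn

theorem st_VF2 (hKK : ST_KK) (hBI : ST_BI) (hIAL : ST_IAL) : ST_VF2 := by
  intro N lev f f' p q κ C l n δ a F h hEG hp hq hκ hHP hSM hδ hVE ha hF hFA hperp
  have hP : IsProbabilityMeasure κ := hκ.prob
  have hfst := mp_fst hκ
  have hSp := st_MPS N lev f f' h p
  have hS1 := st_MPS N lev f f' h 1
  have hCp : IA (mm N) C (SS f)^[p] (SS f')^[p] := hHP.ia.iterate p
  have hAp : IA (mm N) (AL lev l) (SS f)^[p] (SS f')^[p] := hIAL N lev f f' h l p
  have hA1 : IA (mm N) (AL lev l) (SS f) (SS f') := hIAL N lev f f' h l 1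
  have hex : Inc (mm N) (AL lev l) (SS f)^[p] (ex a) :=
    inc_iterate hA1 (mp_SS h.t) (uf_ex a) (inc_ex h.t ha) p
  have hK := hKK (T N) (mm N) (SS f)^[p] (SS f')^[p] C (AL lev l) (ex a) F n hSp (hEG p hp).1 hCp
    hAp hHP.le (uf_ex a) hex hSM hF hFA (fun ψ hψ hψI hψA => hperp ψ ⟨hψ, hψA, hψI⟩)
  set A : ℝ := ∫ x, ‖F x‖ ^ 2 ∂(mm N) with hA
  have hA0 : 0 ≤ A := integral_nonneg fun x => by positivity
  have hF' : BF (fun z : T N × T N => F z.1) := by
    obtain ⟨hFm, B, hB⟩ := hF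
    exact ⟨hFm.comp measurable_fst, B, fun z => hB z.1⟩
  have hinc : ∀ m n : ℕ, AM (mm N) (AL lev l)
      (fun x => F (((SS f)^[p])^[m] x) * conj (F (((SS f)^[p])^[n] x))) := by
    intro m n
    have h1 : ∀ k : ℕ, AM (mm N) (AL lev l)
        (fun x => ex a (((SS f)^[p])^[k] x) * conj (ex a x)) := fun k =>
      inc_iterate hAp hSp.mp (uf_ex a) hex k
    have h2 : ∀ k : ℕ, AM (mm N) (AL lev l)
        (fun x => conj (ex a (((SS f)^[p])^[k] x)) * F (((SS f)^[p])^[k] x)) := fun k =>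
      ((hAp.iterate k).2 _ hFA).1
    refine am_congr (am_mul (am_mul (h1 m) (am_conj (h1 n))) (am_mul (h2 m) (am_conj (h2 n))))
      (Eventually.of_forall fun x => ?_)
    have e0 := ex_mul_conj a x
    have e1 := ex_mul_conj a (((SS f)^[p])^[m] x)
    have e2 := ex_mul_conj a (((SS f)^[p])^[n] x)
    simp only [map_mul, Complex.conj_conj]
    linear_combination (ex a (((SS f)^[p])^[m] x) * conj (ex a (((SS f)^[p])^[m] x)) *
      (ex a (((SS f)^[p])^[n] x) * conj (ex a (((SS f)^[p])^[n] x))) *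
      (F (((SS f)^[p])^[m] x) * conj (F (((SS f)^[p])^[n] x)))) * e0 +
      ((ex a (((SS f)^[p])^[n] x) * conj (ex a (((SS f)^[p])^[n] x))) *
      (F (((SS f)^[p])^[m] x) * conj (F (((SS f)^[p])^[n] x)))) * e1 +
      (F (((SS f)^[p])^[m] x) * conj (F (((SS f)^[p])^[n] x))) * e2
  have hB := hBI (T N × T N) κ (Prod.map (SS f)^[p] (SS f)^[q]) (Prod.map (SS f')^[p] (SS f')^[q])
    (BB N) (cm Prod.fst C) (cm Prod.fst (AL lev l)) (fun z => F z.1) δ (A ^ 2 / (n + 1))
    (sys_jn h hκ) hκ.erg (ia_BB h hκ) (ia_fst h hκ hCp) (ia_fst h hκ hAp)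
    (lq_cm hfst hCp.1 hHP.le) hδ (by positivity)
    (fun G hG hGA h0 => ve_pairs hκ hCp.1 hAp.1 hVE hG hGA h0) hF' ?_ ?_
  · have e1 : ∫ z : T N × T N, ‖F z.1‖ ^ 2 ∂κ = A :=
      int_cm hfst (g := fun x => ‖F x‖ ^ 2) (hF.1.norm.pow_const 2).aestronglyMeasurable
    rw [e1] at hB
    have e2 : √(A ^ 2 / ((n : ℝ) + 1)) = 1 / √((n : ℝ) + 1) * A := by
      rw [Real.sqrt_div (sq_nonneg A), Real.sqrt_sq hA0]
      ring
    rw [e2] at hB
    unfold JJ
    linarith
  · intro m n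
    have hit : ∀ (k : ℕ) (z : T N × T N),
        ((Prod.map (SS f)^[p] (SS f)^[q])^[k] z).1 = ((SS f)^[p])^[k] z.1 := by
      intro k
      induction k with
      | zero => exact fun z => rfl
      | succ k ih =>
        intro z
        rw [Function.iterate_succ_apply, Function.iterate_succ_apply, ih]
        rfl
    simp only [hit]
    exact AM_comp hfst (hinc m n)
  · have e3 : (fun H => al κ (cm Prod.fst C) (Prod.map (SS f)^[p] (SS f)^[q])
        (fun _ => (1 : ℂ →L[ℂ] ℂ)) (fun z => F z.1) H) =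
        fun H => al (mm N) C (SS f)^[p] (fun _ => (1 : ℂ →L[ℂ] ℂ)) F H := by
      funext H
      exact al_cm hfst hCp.1 (fun _ => rfl) hSp.mp.measurable hF H
    rw [e3]
    exact hK

end Pool.Agent.Helper59.TWR
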