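import Pool.Agent.Helper98.TW.Basic

/-! MPS: towers preserve the measure (MP_7a8f48_an). -/

open MeasureTheory Filter Topology Finset
open scoped ComplexConjugate

namespace Pool.Agent.Helper59.TWR

open Pool.Agent.Helper16.AZ (T mm)
open Pool.Agent.Helper98.TW

/-- a translation of some coordinates by a function of the other ones preserves the measure -/
theorem mp_fib {N : ℕ} (J : Fin N → Prop) [DecidablePred J] {g : T N → T N} (hg : Measurable g)
    (h1 : ∀ x i, ¬ J i → g x i = 0)
    (h2 : ∀ x y : T N, (∀ i, ¬ J i → y i = 0) → g (x + y) = g x) :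
    MeasurePreserving (fun x => x + g x) (mm N) (mm N) := by
  have hmx : Measurable (fun x : T N => x + g x) := measurable_id.add hg
  refine ⟨hmx, ?_⟩
  set pj : T N → T N := fun t i => if J i then t i else 0 with hpj
  have hpjm : Measurable pj := by
    refine measurable_pi_iff.2 fun i => ?_
    by_cases hi : J i
    · simp only [hpj, if_pos hi]; exact measurable_pi_apply i
    · simp only [hpj, if_neg hi]; exact measurable_const
  have hpjg : ∀ x t, g x + pj t = pj (t + g x) := by
    intro x t
    funext i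
    by_cases hi : J i
    · simp only [hpj, if_pos hi, Pi.add_apply]; exact add_comm _ _
    · simp only [hpj, if_neg hi, Pi.add_apply, h1 x i hi, add_zero]
  refine Measure.ext_of_lintegral _ fun F hF => ?_
  rw [lintegral_map hF hmx]
  have e1 : ∀ t : T N, ∫⁻ x, F (x + g x) ∂(mm N) = ∫⁻ x, F (x + g x + pj t) ∂(mm N) := by
    intro t
    have := lintegral_add_right_eq_self (μ := mm N) (fun x => F (x + g x)) (pj t)
    rw [← this]
    refine lintegral_congr fun x => ?_
    rw [h2 x (pj t) (fun i hi => by simp only [hpj, if_neg hi])]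
    congr 1
    abel
  have e2 : ∀ t : T N, ∫⁻ x, F x ∂(mm N) = ∫⁻ x, F (x + pj t) ∂(mm N) := fun t =>
    (lintegral_add_right_eq_self (μ := mm N) (fun x => F x) (pj t)).symm
  have e3 : ∫⁻ x, F (x + g x) ∂(mm N) = ∫⁻ t, ∫⁻ x, F (x + g x + pj t) ∂(mm N) ∂(mm N) := by
    rw [← lintegral_congr e1, lintegral_const, measure_univ, mul_one]
  have e4 : ∫⁻ x, F x ∂(mm N) = ∫⁻ t, ∫⁻ x, F (x + pj t) ∂(mm N) ∂(mm N) := by
    rw [← lintegral_congr e2, lintegral_const, measure_univ, mul_one]
  have e5 : ∫⁻ t, ∫⁻ x, F (x + g x + pj t) ∂(mm N) ∂(mm N) =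
      ∫⁻ x, ∫⁻ t, F (x + g x + pj t) ∂(mm N) ∂(mm N) :=
    lintegral_lintegral_swap
      (hF.comp ((hmx.comp measurable_snd).add (hpjm.comp measurable_fst))).aemeasurable
  have e6 : ∫⁻ t, ∫⁻ x, F (x + pj t) ∂(mm N) ∂(mm N) =
      ∫⁻ x, ∫⁻ t, F (x + pj t) ∂(mm N) ∂(mm N) :=
    lintegral_lintegral_swap
      (hF.comp (measurable_snd.add (hpjm.comp measurable_fst))).aemeasurable
  rw [e3, e4, e5, e6]
  refine lintegral_congr fun x => ?_
  have := lintegral_add_right_eq_self (μ := mm N) (fun t => F (x + pj t)) (g x)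
  rw [← this]
  refine lintegral_congr fun t => ?_
  rw [add_assoc, hpjg]

/-- one level -/
noncomputable def Kl {N : ℕ} (lev : Fin N → ℕ) (f : Fin N → T N → U) (l : ℕ) (x : T N) : T N :=
  x + fun i => if lev i = l then f i x else 0

/-- the levels `< l` -/
noncomputable def Sl {N : ℕ} (lev : Fin N → ℕ) (f : Fin N → T N → U) (l : ℕ) (x : T N) : T N :=
  fun i => if lev i < l then x i + f i x else x i

theorem dep' {N : ℕ} {lev : Fin N → ℕ} {f : Fin N → T N → U} (h : Tow lev f) (i : Fin N)
    {x y : T N} (hxy : ∀ j, lev j < lev i → x j = y j) : f i x = f i y := by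
  rw [← h.dep i x, ← h.dep i y]
  congr 1
  funext j
  unfold tr
  by_cases hj : lev j < lev i
  · simp only [if_pos hj]; exact hxy j hj
  · simp only [if_neg hj]

theorem mp_Kl {N : ℕ} {lev : Fin N → ℕ} {f : Fin N → T N → U} (h : Tow lev f) (l : ℕ) :
    MeasurePreserving (Kl lev f l) (mm N) (mm N) := by
  refine mp_fib (fun i => lev i = l) (g := fun x i => if lev i = l then f i x else 0) ?_ ?_ ?_
  · refine measurable_pi_iff.2 fun i => ?_
    by_cases hi : lev i = l
    · simp only [if_pos hi]; exact h.meas i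
    · simp only [if_neg hi]; exact measurable_const
  · intro x i hi
    simp only [if_neg hi]
  · intro x y hy
    funext i
    by_cases hi : lev i = l
    · simp only [if_pos hi]
      refine dep' h i fun j hj => ?_
      rw [Pi.add_apply, hy j (by omega), add_zero]
    · simp only [if_neg hi]

theorem Sl_succ {N : ℕ} {lev : Fin N → ℕ} {f : Fin N → T N → U} (h : Tow lev f) (l : ℕ) :
    Sl lev f (l + 1) = Sl lev f l ∘ Kl lev f l := by
  funext x i
  have hK : ∀ j, lev j ≠ l → Kl lev f l x j = x j := by
    intro j hj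
    unfold Kl
    simp only [Pi.add_apply, if_neg hj, add_zero]
  simp only [Function.comp_apply, Sl]
  rcases lt_trichotomy (lev i) l with h1 | h1 | h1
  · rw [if_pos (by omega), if_pos h1, hK i (by omega)]
    congr 1
    exact dep' h i fun j hj => (hK j (by omega)).symm
  · rw [if_pos (by omega), if_neg (by omega)]
    unfold Kl
    simp only [Pi.add_apply, if_pos h1]
  · rw [if_neg (by omega), if_neg (by omega), hK i (by omega)]

theorem mp_Sl {N : ℕ} {lev : Fin N → ℕ} {f : Fin N → T N → U} (h : Tow lev f) (l : ℕ) :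
    MeasurePreserving (Sl lev f l) (mm N) (mm N) := by
  induction l with
  | zero =>
    have : Sl lev f 0 = id := by
      funext x i
      simp [Sl]
    rw [this]
    exact MeasurePreserving.id _
  | succ l ih =>
    rw [Sl_succ h l]
    exact ih.comp (mp_Kl h l)

/-- towers preserve the measure -/
theorem mp_SS {N : ℕ} {lev : Fin N → ℕ} {f : Fin N → T N → U} (h : Tow lev f) :
    MeasurePreserving (SS f) (mm N) (mm N) := by
  have : SS f = Sl lev f (∑ i, lev i + 1) := by
    funext x i
    have h1 : lev i ≤ ∑ j, lev j := Finset.single_le_sum (fun j _ => Nat.zero_le (lev j))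
      (Finset.mem_univ i)
    unfold SS Sl
    rw [if_pos (by omega)]
  rw [this]
  exact mp_Sl h _

theorem st_MPS : ST_MPS := by
  intro N lev f f' h m
  have h1 : Sys (mm N) (SS f) (SS f') :=
    ⟨mp_SS h.t, mp_SS h.t', Eventually.of_forall h.l, Eventually.of_forall h.r⟩
  exact h1.iterate m

end Pool.Agent.Helper59.TWR
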